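import Mathlib
import Pool.Graph.R_seed8.Results.MP_d7d825_lc.StrengthOfP
import Pool.Agent.KS6_32.LX.G

/-!
# The uniform strength of the principle `P`

`P`: every infinite weakly stable partial order has an infinite stable suborder.

Over `RCA₀` the principle is equivalent to `SADS` (first part, from the earlier library). Here the
uniform (Weihrauch) strength is determined. `P`, `SADC` and `SADS` are regarded as problems on
Baire space (`LX/E.lean`): an instance of `PP` is a code of an infinite weakly stable partial order
and a solution is a code of an infinite subset of it which is stable; the instances of `SADC` and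
`SADS` are the infinite linear orders in which every element has finitely many predecessors or
finitely many successors; a solution of `SADC` is an infinite subset of type `ω` or `ω*`, and a
solution of `SADS` is an infinite ascending or descending sequence.
-/

namespace Pool.Agent.Results.MP_d7d825_lc.WeihrauchStrength

open Pool.Agent.Helper617.RM Pool.Agent.KS6_32.LX.E Pool.Agent.KS6_32.LX.F

universe u

/-- (1) `RCA₀` proves `P ↔ SADS`. (2) There is one functional, computed by a primitive recursive
function with primitive recursively bounded use, which turns every infinite weakly stable partial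
order into a stable linear order with the same field, such that every infinite set of type `ω` or
`ω*` for the linear order is itself a stable suborder of the partial order. (3) `SADC` is the
restriction of `P` to linear orders. (4) Hence `P` and `SADC` are strongly Weihrauch equivalent.
(5) `P` is strongly Weihrauch reducible to `SADS`, but `SADS` is not Weihrauch reducible to `P`,
not even by continuous functionals. -/
theorem result :
    (∀ N : L2Structure.{u}, IsModelRCA0 N → (PrincipleP N ↔ PrincipleSADS N)) ∧
    (∃ Φ : (ℕ → ℕ) → ℕ → ℕ, PrimrecFunctional Φ ∧ ∀ X ∈ PP.dom,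
      Φ X ∈ SADC.dom ∧ field (Φ X) = field X ∧ SADC.sol (Φ X) ⊆ PP.sol X) ∧
    (∀ X ∈ SADC.dom, X ∈ PP.dom ∧ SADC.sol X = PP.sol X) ∧
    (StrongRed PP SADC ∧ StrongRed SADC PP) ∧
    (StrongRed PP SADS ∧ ¬ ContRed SADS PP) :=
  ⟨fun N hN => ⟨SADS_of_P, P_of_SADS⟩,
    ⟨Phi, PhiFun, fun _ hX => ⟨Phi_mem hX, field_Phi hX.1, fun _ hS => sol_Phi hX hS⟩⟩,
    fun _ hX => ⟨dom_SADC hX, Set.ext fun S => sol_SADC hX S⟩,
    ⟨P_le_SADC, SADC_le_P⟩, ⟨P_le_SADS, Pool.Agent.KS6_32.LX.G.not_SADS_le_P⟩⟩

end Pool.Agent.Results.MP_d7d825_lc.WeihrauchStrength
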